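import Pool.Agent.V8H32.Law.Var

/-!
# Meromorphic continuation to the edge gives an algebraic law of Sato-Tate type

`X` is a smooth projective variety over a number field `K` (for example `K = ℚ`), `V = H^i(X)`, `N = dim V`, `S` a
finite set of primes of `K` that contains the primes of bad reduction, `α_{v,1}, …, α_{v,N}` the eigenvalues of the
geometric Frobenius at `v ∉ S`. The theorem is about the L-functions of all the parts `⊗_k (Λ^k V)^{⊗ m_k}`,
`m_1, …, m_N ≥ 0`, of the cohomology `V^{⊗ D} ⊂ H^{iD}(X^D)`, `D = ∑ k m_k`, of the powers of `X`; for `V = H^1` of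
an abelian variety these are the Künneth components `H^{a_1}(X) ⊗ … ⊗ H^{a_r}(X)` of the cohomology of `X^r`, and
for `V = H^1` of a curve they are, up to factors of the same kind with smaller `D`, the L-functions of the
middle cohomology of the products of symmetric powers of the curve. The edge of the half-plane of absolute
convergence is the line `Re s = w/2 + 1`, `w = i D`.

**Theorem.** Let `T` be any subgroup of `ℝ`, for instance `T = {0}` or `T = ℝ`. One of the following is true.

1. For some `m` and some `τ ∈ T` there is no integer `k` with `log |L(w/2 + 1 + iτ + ε)| ~ k log (1/ε)` for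
   `ε → 0+`; so this L-function has no meromorphic continuation to any neighbourhood of the point
   `w/2 + 1 + iτ` of its edge.
2. All the limits `ord m τ` of `log |L(w/2 + 1 + iτ + ε)| / log (1/ε)`, `τ ∈ T`, exist and are integers (the orders
   of the poles of any meromorphic continuations to neighbourhoods of these points), and
   * the Frobenius classes have an **algebraic law**: there are at most `N!` closed subgroups `H_j` of the torus
     `(ℝ/ℤ)^N` and trigonometric polynomials `p_j` with integral coefficients, such that the `p_j · Haar(H_j)` are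
     positive measures and the classes of the eigenangles `θ_v ∈ (ℝ/ℤ)^N / S_N` are equidistributed with respect to
     `(1/N!) ∑ p_j · Haar(H_j)`;
   * the orders of all the L-functions at all the points are given by **finitely many data**: at most `N!`
     homomorphisms from subgroups of `ℤ^N` to `T` (with graphs `G_j ≤ ℤ^N × T`) and finitely many integers
     `c_j(y)`, `y ∈ ℤ^N × T`, with `N! · ord m τ = ∑_A ∑_j ∑ {c_j(y) : (wt A, τ) ∈ y + G_j}`, where `A` runs through
     the basis vectors of `⊗_k (Λ^k V)^{⊗ m_k}` and `wt A ∈ ℤ^N` is the weight; the heights `τ` of all the zeros and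
     poles are in one finitely generated group.

So if the question has a positive answer, even in the weak form of meromorphy in neighbourhoods of the single
points `w/2 + 1`, for the parts of the powers of `X`, then a law of Sato-Tate type exists for `X`, and it is given
by compact abelian groups and integral characters; and a variety whose Frobenius classes have no such law (for
instance no law at all, or one with a density that is not a trigonometric polynomial) would give a negative answer.
No equidistribution is known for the Frobenius classes of, say, a general curve of genus 2 or of an elliptic curve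
over a field which is neither totally real nor CM, and nothing about the zeros and poles is assumed.

Idea: the function `(x, τ) ↦ E(∑_{σ ∈ S_N} e(⟨x, σ θ_v⟩) · cos(τ log q_v))`, with the mean value `E` over the primes
with the weights `q_v^{-1-ε}`, is a positive definite function on the group `ℤ^N × T`. By the fundamental theorem on
symmetric functions the orbit sums are *integral* combinations of products of the characters of the `Λ^k V`
(`det V` is a sign), so its values are integral combinations of the limits: if those are integers, then it is a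
positive definite function with integral values. The theorem of Helson and Cohen on such functions, which is proved
here with weak limits in a Hilbert space, gives the structure.
-/

set_option autoImplicit false

namespace Pool.Agent.Results.MP_039d94_nt.AlgebraicLawOrNoContinuation

open Complex Filter Topology NumberField IsDedekindDomain
open Pool.Agent.TH958.BV (IsFrobenius)
open Pool.Agent.V8H32.Law (size Continues edge AlgebraicLaw FiniteData)

/-- **Continuation to the edge gives an algebraic law.** -/
theorem result (K : Type) [Field K] [NumberField K] {n : ℕ} (X : Set (MvPolynomial (Fin n) (𝓞 K)))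
    (d i N : ℕ) (_ : i ≤ 2 * d) (S : Finset (HeightOneSpectrum (𝓞 K)))
    (α : HeightOneSpectrum (𝓞 K) → Fin N → ℂ) (_ : ∀ v, v ∉ S → IsFrobenius X d i v (α v))
    (T : AddSubgroup ℝ) :
    (∃ m : Fin N → ℕ, ∃ τ ∈ T, (¬ ∃ k : ℤ, Tendsto (size i S α m τ) (𝓝[>] 0) (𝓝 k)) ∧
      ¬ ∃ Λ : ℂ → ℂ, Continues i S α m τ Λ) ∨
    ∃ ord : (Fin N → ℕ) → ℝ → ℤ,
      (∀ m, ∀ τ ∈ T, Tendsto (size i S α m τ) (𝓝[>] 0) (𝓝 (ord m τ)) ∧
        ∀ Λ : ℂ → ℂ, Continues i S α m τ Λ →
          meromorphicOrderAt Λ (edge i m τ) = ((-ord m τ : ℤ) : WithTop ℤ)) ∧
      AlgebraicLaw i S α ∧ FiniteData T ord := by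
  rename_i hi hα
  obtain ⟨θ, hθ⟩ := Pool.Agent.V8H32.Law.exists_angles hi hα
  have hmero : ∀ (m : Fin N → ℕ) (τ : ℝ) (Λ : ℂ → ℂ), Continues i S α m τ Λ →
      ∃ k : ℤ, meromorphicOrderAt Λ (edge i m τ) = k ∧
        Tendsto (size i S α m τ) (𝓝[>] 0) (𝓝 (-(k : ℝ))) := by
    intro m τ Λ hΛ
    refine Pool.Agent.V8H32.Coh.mero (s₀ := edge i m τ)
      (Pool.Agent.V8H32.Law.size_law hθ m τ).1 hΛ.1 ?_
    have h1 : (edge i m τ).re = (i : ℝ) * (Pool.Agent.V8H32.Law.deg m : ℝ) / 2 + 1 := by
      unfold edge
      have : (i : ℂ) * (Pool.Agent.V8H32.Law.deg m : ℂ) / 2 =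
          (((i : ℝ) * (Pool.Agent.V8H32.Law.deg m : ℝ) / 2 : ℝ) : ℂ) := by push_cast; rfl
      rw [this]
      simp
    rw [h1]
    exact hΛ.2
  by_cases hint : ∀ m : Fin N → ℕ, ∀ τ ∈ T, ∃ k : ℤ, Tendsto (size i S α m τ) (𝓝[>] 0) (𝓝 k)
  · right
    choose! ord hord using hint
    refine ⟨ord, fun m τ hτ => ⟨hord m τ hτ, fun Λ hΛ => ?_⟩,
      Pool.Agent.V8H32.Law.main hi hα hord⟩
    obtain ⟨k, hk1, hk2⟩ := hmero m τ Λ hΛ
    have h1 := tendsto_nhds_unique (hord m τ hτ) hk2
    have h2 : k = -ord m τ := by
      have : (k : ℝ) = ((-ord m τ : ℤ) : ℝ) := by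
        push_cast
        linarith
      exact_mod_cast this
    rw [hk1, h2]
  · left
    push Not at hint
    obtain ⟨m, τ, hτ, hno⟩ := hint
    refine ⟨m, τ, hτ, fun ⟨k, hk⟩ => hno k hk, fun ⟨Λ, hΛ⟩ => ?_⟩
    obtain ⟨k, -, hk⟩ := hmero m τ Λ hΛ
    refine hno (-k) ?_
    push_cast
    exact hk

end Pool.Agent.Results.MP_039d94_nt.AlgebraicLawOrNoContinuation
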