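import Pool.Agent.V8H35.BJ.Fin

/-!
# The value distribution on the edge of the L-functions of all varieties

`X` is a smooth projective variety of dimension `d` over `ℚ`, `0 ≤ i ≤ 2d`.  The Euler product
`L(H^i(X), s)` converges absolutely for `Re s > i/2 + 1`; nothing is known in general about its
continuation to, or beyond, the edge `Re s = e = i/2 + 1`.  The theorem develops the theory of Bohr
and Jessen on this line for all `X` and `i`, and for any finite number of pairs `(X, i)` together,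
without any continuation: the boundary values `λ(τ)` of `log L(H^i(X), s)` at `e + iτ` exist
outside a set of dimension `0` and are almost periodic in the mean square over all unit intervals;
the Fourier coefficients are the traces of Frobenius; on every long interval, wherever it lies, the
values are distributed like those of the random Euler product; the moments of `|L|` of small
positive and negative order exist; every value is taken on a set of Banach density zero only, and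
two of these `L`-functions, if not identical, have equal boundary values on a set of Banach density
zero only.
-/

set_option autoImplicit false

namespace Pool.Agent.Results.MP_039d94_nt.BohrJessenOnTheEdge

open MeasureTheory Filter Topology

/-- The set `X` of homogeneous polynomials with integral coefficients in `n` variables defines a
projective scheme.  For a field `κ` with `q` elements this is `(q - 1)` times the number of the
points of `X` with coordinates in `κ`: the number of the nonzero solutions of the equations. -/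
noncomputable def cone {n : ℕ} (X : Set (MvPolynomial (Fin n) ℤ)) (κ : Type) [Field κ] : ℕ :=
  Nat.card {u : Fin n → κ // u ≠ 0 ∧ ∀ f ∈ X, MvPolynomial.eval₂ (Int.castRingHom κ) u f = 0}

/-- `α_1, …, α_N` are the eigenvalues of the geometric Frobenius at the prime `p` on `H^i(X)`, for a
variety `X` of dimension `d`: there are finite multisets `β_k` of complex numbers of absolute value
`p^{k/2}`, `k = 0, …, 2d`, with `β_i = {α_1, …, α_N}`, such that for every field `κ` with `p^m`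
elements the number of the points of `X` with coordinates in `κ` is `∑ (-1)^k ∑_{z ∈ β_k} z^m`. By
the theorem of Deligne such `β_k` exist at almost all primes if `X` is smooth, with `N` the `i`-th
Betti number of `X`; for `k ≤ 2d` they are unique. -/
def IsFrobenius {n : ℕ} (X : Set (MvPolynomial (Fin n) ℤ)) (d i : ℕ) (p : Nat.Primes) {N : ℕ}
    (α : Fin N → ℂ) : Prop :=
  ∃ β : ℕ → Multiset ℂ, β i = Finset.univ.val.map α ∧
    (∀ k, ∀ z ∈ β k, ‖z‖ = ((p : ℕ) : ℝ) ^ ((k : ℝ) / 2)) ∧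
    ∀ (κ : Type) [Field κ] [Finite κ] (m : ℕ), Nat.card κ = (p : ℕ) ^ m →
      (cone X κ : ℂ) = (((p : ℕ) : ℂ) ^ m - 1) *
        ∑ k ∈ Finset.range (2 * d + 1), (-1 : ℂ) ^ k * ((β k).map (fun z => z ^ m)).sum

/-- The Euler factors `∏_j (1 - α_{p,j} p^{-s})⁻¹` are those of `L(H^i(X), s)` at almost all primes.
At the other primes the `α_{p,j}` are any numbers of absolute value at most `p^{i/2}` (for example
`0`, or the eigenvalues of Frobenius on the inertia invariants together with some `0`). -/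
structure IsEulerSystem {n : ℕ} (X : Set (MvPolynomial (Fin n) ℤ)) (d i N : ℕ)
    (α : Nat.Primes → Fin N → ℂ) : Prop where
  good : ∀ᶠ p in cofinite, IsFrobenius X d i p (α p)
  bad : ∀ p j, ‖α p j‖ ≤ ((p : ℕ) : ℝ) ^ ((i : ℝ) / 2)

/-- `L(H^i(X), s)` -/
noncomputable def LFun {N : ℕ} (α : Nat.Primes → Fin N → ℂ) (s : ℂ) : ℂ :=
  ∏' p : Nat.Primes, ∏ j, (1 - α p j * ((p : ℕ) : ℂ) ^ (-s))⁻¹

/-- `log L(H^i(X), s) = ∑_p ∑_k tr (F_p^{k+1}) / (k+1) · p^{-(k+1)s}` -/
noncomputable def logL {N : ℕ} (α : Nat.Primes → Fin N → ℂ) (s : ℂ) : ℂ :=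
  ∑' x : Nat.Primes × ℕ, (∑ j, α x.1 j ^ (x.2 + 1)) / ((x.2 + 1 : ℕ) : ℂ) *
    (((x.1 : ℕ) : ℂ) ^ (-s)) ^ (x.2 + 1)

/-- The point `i/2 + 1 + iτ` of the edge of absolute convergence. -/
noncomputable def edgePoint (i : ℕ) (τ : ℝ) : ℂ :=
  (((i : ℝ) / 2 + 1 : ℝ) : ℂ) + (τ : ℂ) * Complex.I

/-- The angle `|s - s_τ| ≤ C (Re s - (i/2 + 1))` at `s_τ = i/2 + 1 + iτ` in the half-plane
`Re s > i/2 + 1`. -/
def angle (i : ℕ) (τ C : ℝ) : Set ℂ :=
  {s : ℂ | (i : ℝ) / 2 + 1 < s.re ∧ ‖s - edgePoint i τ‖ ≤ C * (s.re - ((i : ℝ) / 2 + 1))}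

/-- The coefficient `tr (F_p^{k+1}) / ((k+1) p^{(k+1)(i/2+1)})` of the series for `log L(H^i(X), s)`
on the edge. -/
noncomputable def coef {N : ℕ} (i : ℕ) (α : Nat.Primes → Fin N → ℂ) (x : Nat.Primes × ℕ) : ℂ :=
  (∑ j, α x.1 j ^ (x.2 + 1)) / ((x.2 + 1 : ℕ) : ℂ) /
    ((((((x.1 : ℕ) : ℝ) ^ ((i : ℝ) / 2 + 1)) ^ (x.2 + 1) : ℝ)) : ℂ)

/-- `λ` is the function of the boundary values of `log L(H^i(X), s)`: outside a set of Hausdorff
dimension `0`, `log L(H^i(X), s)` tends to `λ(τ)` in every angle at the point `i/2 + 1 + iτ`; the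
function is measurable and locally square integrable. -/
structure IsBoundary {N : ℕ} (i : ℕ) (α : Nat.Primes → Fin N → ℂ) (lam : ℝ → ℂ) : Prop where
  limit : ∃ Z : Set ℝ, dimH Z = 0 ∧ ∀ τ : ℝ, τ ∉ Z → ∀ C : ℝ,
    Tendsto (logL α) (𝓝[angle i τ C] (edgePoint i τ)) (𝓝 (lam τ))
  measurable : AEMeasurable lam
  square : ∀ a b : ℝ, IntervalIntegrable (fun τ => ‖lam τ‖ ^ 2) volume a b

/-- The probability space of independent uniform random angles `ω_p ∈ ℝ/ℤ`, one for each prime. -/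
abbrev Ω : Type := Nat.Primes → UnitAddCircle

/-- The product measure. -/
noncomputable abbrev Pr : Measure Ω :=
  Measure.infinitePi fun _ : Nat.Primes => (AddCircle.haarAddCircle : Measure UnitAddCircle)

open Classical in
/-- `B` is the logarithm of the random Euler product: the limit in the mean square of the sums over
the prime powers `p^{k+1} ≤ Y` in which `p^{-iτ}` is replaced by `e(ω_p)`. -/
structure IsRandom {N : ℕ} (i : ℕ) (α : Nat.Primes → Fin N → ℂ) (B : Ω → ℂ) : Prop where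
  measurable : Measurable B
  square : MemLp B 2 Pr
  limit : ∀ S : ℕ → Finset (Nat.Primes × ℕ),
    (∀ Y x, x ∈ S Y ↔ ((x.1 : ℕ) : ℕ) ^ (x.2 + 1) ≤ Y) →
    Tendsto (fun Y => eLpNorm (fun ω => B ω -
      ∑ x ∈ S Y, coef i α x * fourier ((x.2 + 1 : ℕ) : ℤ) (ω x.1)) 2 Pr) atTop (𝓝 0)

/-- The means of `f` over the intervals `[t, t + T]` tend to `c` for `T → ∞`, uniformly in `t`. -/
def UniformMean (f : ℝ → ℂ) (c : ℂ) : Prop :=
  ∀ ε : ℝ, 0 < ε → ∃ T₀ : ℝ, 0 < T₀ ∧ ∀ T : ℝ, T₀ ≤ T → ∀ t : ℝ,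
    ‖(T : ℂ)⁻¹ * (∫ u in t..(t + T), f u) - c‖ ≤ ε

/-- The set `S` has upper Banach density `0`. -/
def BanachNull (S : Set ℝ) : Prop :=
  ∀ ε : ℝ, 0 < ε → ∃ T₀ : ℝ, 0 < T₀ ∧ ∀ T : ℝ, T₀ ≤ T → ∀ t : ℝ,
    volume (S ∩ Set.Icc t (t + T)) ≤ ENNReal.ofReal (ε * T)

open Pool.Agent.TH339.MP (PP FF bl ap bl_angle tm wt)
open Pool.Agent.V8H35.BJ (bq norm_bq ed Apx RV Mean apx_bl)

section

variable {N : ℕ} {i : ℕ} {α : Nat.Primes → Fin N → ℂ}

/-- the normalised roots -/
noncomputable def nr (i : ℕ) (α : Nat.Primes → Fin N → ℂ) (p : Nat.Primes) (j : Fin N) : ℂ :=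
  α p j / (((((p : ℕ) : ℝ) ^ ((i : ℝ) / 2) : ℝ)) : ℂ)

lemma pi_pos (p : Nat.Primes) (y : ℝ) : 0 < ((p : ℕ) : ℝ) ^ y :=
  Real.rpow_pos_of_pos (Pool.Agent.TH339.MP.prime_pos p) _

lemma norm_nr (h : ∀ p j, ‖α p j‖ ≤ ((p : ℕ) : ℝ) ^ ((i : ℝ) / 2)) (p : Nat.Primes) (j : Fin N) :
    ‖nr i α p j‖ ≤ 1 := by
  unfold nr
  rw [norm_div, Complex.norm_real, Real.norm_of_nonneg (pi_pos _ _).le]
  exact div_le_one_of_le₀ (h p j) (pi_pos _ _).le

lemma cpow_shift (p : Nat.Primes) (i : ℕ) (s : ℂ) :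
    ((p : ℕ) : ℂ) ^ (-(s - (i : ℂ) / 2)) =
      ((((p : ℕ) : ℝ) ^ ((i : ℝ) / 2) : ℝ) : ℂ) * ((p : ℕ) : ℂ) ^ (-s) := by
  have hne : ((p : ℕ) : ℂ) ≠ 0 := by exact_mod_cast p.2.ne_zero
  rw [neg_sub, sub_eq_add_neg, Complex.cpow_add _ _ hne,
    Complex.ofReal_cpow (Pool.Agent.TH339.MP.prime_pos p).le]
  push_cast
  rfl

lemma nr_mul (p : Nat.Primes) (j : Fin N) (s : ℂ) :
    nr i α p j * ((p : ℕ) : ℂ) ^ (-(s - (i : ℂ) / 2)) = α p j * ((p : ℕ) : ℂ) ^ (-s) := by
  rw [cpow_shift]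
  unfold nr
  have : ((((p : ℕ) : ℝ) ^ ((i : ℝ) / 2) : ℝ) : ℂ) ≠ 0 := by
    exact_mod_cast (pi_pos p _).ne'
  field_simp

lemma logL_eq (s : ℂ) : logL α s = FF (bq (nr i α)) (s - (i : ℂ) / 2) := by
  unfold logL FF
  refine tsum_congr fun x => ?_
  unfold tm bq
  rw [div_mul_eq_mul_div, div_mul_eq_mul_div, Finset.sum_mul, Finset.sum_mul]
  congr 1
  refine Finset.sum_congr rfl fun j _ => ?_
  rw [← mul_pow, ← mul_pow, nr_mul]

lemma coef_eq (x : Nat.Primes × ℕ) : coef i α x = ed (bq (nr i α)) x := by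
  unfold coef ed bq
  have h1 : ((wt 1 x : ℝ) : ℂ) = (((((x.1 : ℕ) : ℝ) ^ (1 : ℝ)) ^ (x.2 + 1) : ℝ) : ℂ)⁻¹ := by
    unfold Pool.Agent.TH339.MP.wt
    rw [Real.rpow_neg (Pool.Agent.TH339.MP.prime_pos x.1).le, inv_pow]
    push_cast
    rfl
  have h2 : ((((x.1 : ℕ) : ℝ) ^ ((i : ℝ) / 2 + 1)) ^ (x.2 + 1) : ℝ) =
      ((((x.1 : ℕ) : ℝ) ^ ((i : ℝ) / 2)) ^ (x.2 + 1)) * ((((x.1 : ℕ) : ℝ) ^ (1 : ℝ)) ^ (x.2 + 1)) := by
    rw [← mul_pow, ← Real.rpow_add (Pool.Agent.TH339.MP.prime_pos x.1)]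
  rw [h1, h2]
  have h3 : ∑ j, nr i α x.1 j ^ (x.2 + 1) = (∑ j, α x.1 j ^ (x.2 + 1)) /
      ((((((x.1 : ℕ) : ℝ) ^ ((i : ℝ) / 2)) ^ (x.2 + 1) : ℝ)) : ℂ) := by
    rw [Finset.sum_div]
    refine Finset.sum_congr rfl fun j _ => ?_
    unfold nr
    rw [div_pow]
    push_cast
    rfl
  rw [h3]
  have h4 : ((((((x.1 : ℕ) : ℝ) ^ ((i : ℝ) / 2)) ^ (x.2 + 1) : ℝ)) : ℂ) ≠ 0 :=
    Complex.ofReal_ne_zero.2 (pow_ne_zero _ (pi_pos x.1 _).ne')
  have h5 : ((((((x.1 : ℕ) : ℝ) ^ (1 : ℝ)) ^ (x.2 + 1) : ℝ)) : ℂ) ≠ 0 :=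
    Complex.ofReal_ne_zero.2 (pow_ne_zero _ (pi_pos x.1 _).ne')
  rw [Complex.ofReal_mul]
  generalize ((((((x.1 : ℕ) : ℝ) ^ ((i : ℝ) / 2)) ^ (x.2 + 1) : ℝ)) : ℂ) = A at h4 ⊢
  generalize ((((((x.1 : ℕ) : ℝ) ^ (1 : ℝ)) ^ (x.2 + 1) : ℝ)) : ℂ) = B at h5 ⊢
  field_simp

lemma edge_sub (τ : ℝ) : edgePoint i τ - (i : ℂ) / 2 = 1 + τ * Complex.I := by
  unfold edgePoint
  push_cast
  ring

/-- the Euler product and its logarithm -/
lemma euler (h : ∀ p j, ‖α p j‖ ≤ ((p : ℕ) : ℝ) ^ ((i : ℝ) / 2)) {s : ℂ}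
    (hs : (i : ℝ) / 2 + 1 < s.re) :
    HasProd (fun p : Nat.Primes => ∏ j, (1 - α p j * ((p : ℕ) : ℂ) ^ (-s))⁻¹)
      (Complex.exp (logL α s)) := by
  have h1 : 1 < (s - (i : ℂ) / 2).re := by
    have h3 : ((i : ℂ) / 2) = (((i : ℝ) / 2 : ℝ) : ℂ) := by push_cast; rfl
    rw [Complex.sub_re, h3, Complex.ofReal_re]
    linarith
  have h2 := Pool.Agent.V8H35.BJ.euler (norm_nr h) h1
  rw [← logL_eq] at h2
  refine h2.congr_fun fun p => ?_
  refine Finset.prod_congr rfl fun j _ => ?_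
  rw [nr_mul]

lemma boundary (h : ∀ p j, ‖α p j‖ ≤ ((p : ℕ) : ℝ) ^ ((i : ℝ) / 2)) :
    IsBoundary i α (bl (bq (nr i α))) := by
  have hb := norm_bq (norm_nr h)
  refine ⟨⟨Pool.Agent.W350.Edge.divSet (ap (bq (nr i α))),
    (Pool.Agent.TH339.MP.boundary hb).2.1, fun τ hτ C => ?_⟩, (apx_bl hb).meas,
    fun a b => (apx_bl hb).ii_sq a b⟩
  have h5 := bl_angle hb hτ C
  have h6 : Tendsto (fun s : ℂ => s - edgePoint i τ) (𝓝[angle i τ C] (edgePoint i τ))
      (𝓝[{z : ℂ | 0 < z.re ∧ ‖z‖ ≤ C * z.re}] 0) := by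
    rw [tendsto_nhdsWithin_iff]
    constructor
    · have h7 : Tendsto (fun s : ℂ => s - edgePoint i τ) (𝓝 (edgePoint i τ))
          (𝓝 (edgePoint i τ - edgePoint i τ)) :=
        (continuous_id.sub continuous_const).tendsto _
      rw [sub_self] at h7
      exact h7.mono_left nhdsWithin_le_nhds
    · filter_upwards [self_mem_nhdsWithin] with s hs
      have hre : (s - edgePoint i τ).re = s.re - ((i : ℝ) / 2 + 1) := by
        unfold edgePoint
        simp
      refine ⟨?_, ?_⟩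
      · rw [hre]
        linarith [hs.1]
      · rw [hre]
        exact hs.2
  refine (h5.comp h6).congr fun s => ?_
  simp only [Function.comp_apply]
  rw [logL_eq (i := i)]
  congr 1
  rw [← edge_sub (i := i)]
  ring

lemma random {B : Ω → ℂ} (hB : RV (ed (bq (nr i α))) B) : IsRandom i α B := by
  refine ⟨hB.meas, hB.memLp, fun S hS => ?_⟩
  refine hB.lim.congr fun Y => ?_
  have h1 : S Y = Pool.Agent.TH339.MP.TX Y := by
    ext x
    rw [hS, Pool.Agent.TH339.MP.mem_TX]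
    rfl
  congr 1
  funext ω
  rw [Pool.Agent.V8H35.BJ.BXa_apply, h1]
  congr 1
  exact Finset.sum_congr rfl fun x _ => by rw [coef_eq]

end

/-- **The value distribution on the edge.**  Let `X_1, …, X_r` be smooth projective varieties over
`ℚ`, of dimensions `d_m`, let `i_m ≤ 2 d_m`, and let `N_m` be the `i_m`-th Betti number of `X_m`.
Put `e_m = i_m/2 + 1`.  There are the functions `λ_m` of the boundary values of
`log L(H^{i_m}(X_m), s)` on `Re s = e_m`, and the logarithms `B_m` of the random Euler products, such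
that

* (joint limit law) for every bounded continuous `Φ` on `ℂ^r` the means of `Φ(λ_1(τ), …, λ_r(τ))`
  over `[t, t + T]` tend for `T → ∞` to the expectation of `Φ(B_1, …, B_r)`, uniformly in `t`;

and for every `m`

* (Euler product) `∏_p ∏_j (1 - α_{p,j} p^{-s})⁻¹ = exp (log L(s))` for `Re s > e_m`;
* (almost periodicity) for every `ε > 0` there is `l` such that every interval of length `l` contains
  some `τ` for which `∫_t^{t+1} |λ_m(u + τ) - λ_m(u)|² du ≤ ε` for all `t`;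
* (Fourier coefficients) the mean of `λ_m(u) q^{iu}` over `[t, t + T]` tends to the coefficient
  `tr (F_p^{k+1}) / ((k+1) q^{e_m})` for every prime power `q = p^{k+1}`, and the mean of
  `λ_m(u) e^{iθu}` to `0` for every real `θ` which is not the logarithm of a prime power;
* (Parseval) the mean of `|λ_m|²` tends to the sum of the squares of the absolute values of these
  coefficients;
* (moments) for every real `κ` with `|κ| N_m < 1` the mean of `|L(H^{i_m}(X_m), e_m + iu)|^κ` tends to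
  the expectation of `|exp B_m|^κ`, which is finite;
* (values) if `L(H^{i_m}(X_m), s)` is not the constant `1`, then for every `w ∈ ℂ` the set of the `τ`
  with `L(H^{i_m}(X_m), e_m + iτ) = w` has upper Banach density `0`;
* (uniqueness) for every `m'`, either the `L`-functions `L(H^{i_m}(X_m), s + e_m)` and
  `L(H^{i_m'}(X_m'), s + e_m')` have the same coefficients, or the set of the `τ` at which their
  boundary values `exp λ_m(τ)` and `exp λ_m'(τ)` are equal has upper Banach density `0`. -/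
theorem result {r : ℕ} (n d i N : Fin r → ℕ) (X : ∀ m, Set (MvPolynomial (Fin (n m)) ℤ))
    (α : ∀ m, Nat.Primes → Fin (N m) → ℂ)
    (hα : ∀ m, IsEulerSystem (X m) (d m) (i m) (N m) (α m)) :
    ∃ (lam : Fin r → ℝ → ℂ) (B : Fin r → Ω → ℂ),
      (∀ m, IsBoundary (i m) (α m) (lam m) ∧ IsRandom (i m) (α m) (B m)) ∧
      (∀ Φ : (Fin r → ℂ) → ℝ, Continuous Φ → (∃ C : ℝ, ∀ x, |Φ x| ≤ C) →
        UniformMean (fun u => ((Φ (fun m => lam m u) : ℝ) : ℂ))
          ((∫ ω, Φ (fun m => B m ω) ∂Pr : ℝ) : ℂ)) ∧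
      ∀ m,
        (∀ s : ℂ, (i m : ℝ) / 2 + 1 < s.re → LFun (α m) s = Complex.exp (logL (α m) s) ∧
          HasProd (fun p : Nat.Primes => ∏ j, (1 - α m p j * ((p : ℕ) : ℂ) ^ (-s))⁻¹)
            (Complex.exp (logL (α m) s))) ∧
        (∀ ε : ℝ, 0 < ε → ∃ l : ℝ, 0 < l ∧ ∀ s : ℝ, ∃ τ ∈ Set.Icc s (s + l), ∀ t : ℝ,
          ∫ u in t..(t + 1), ‖lam m (u + τ) - lam m u‖ ^ 2 ≤ ε) ∧
        (∀ x : Nat.Primes × ℕ, UniformMean (fun u => lam m u *
          Complex.exp (((Real.log (((x.1 : ℕ) ^ (x.2 + 1) : ℕ) : ℝ) * u : ℝ) : ℂ) * Complex.I))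
            (coef (i m) (α m) x)) ∧
        (∀ θ : ℝ, (∀ x : Nat.Primes × ℕ, θ ≠ Real.log (((x.1 : ℕ) ^ (x.2 + 1) : ℕ) : ℝ)) →
          UniformMean (fun u => lam m u * Complex.exp (((θ * u : ℝ) : ℂ) * Complex.I)) 0) ∧
        (Summable (fun x => ‖coef (i m) (α m) x‖ ^ 2) ∧
          UniformMean (fun u => ((‖lam m u‖ ^ 2 : ℝ) : ℂ))
            ((∑' x, ‖coef (i m) (α m) x‖ ^ 2 : ℝ) : ℂ)) ∧
        (∀ κ : ℝ, |κ| * N m < 1 → Integrable (fun ω => ‖Complex.exp (B m ω)‖ ^ κ) Pr ∧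
          UniformMean (fun u => ((‖Complex.exp (lam m u)‖ ^ κ : ℝ) : ℂ))
            ((∫ ω, ‖Complex.exp (B m ω)‖ ^ κ ∂Pr : ℝ) : ℂ)) ∧
        ((∃ x, coef (i m) (α m) x ≠ 0) → ∀ w : ℂ, BanachNull {τ | Complex.exp (lam m τ) = w}) ∧
        ∀ m', (∀ x, coef (i m) (α m) x = coef (i m') (α m') x) ∨
          BanachNull {τ | Complex.exp (lam m τ) = Complex.exp (lam m' τ)} := by
  classical
  have hb : ∀ m, ∀ x, ‖bq (nr (i m) (α m)) x‖ ≤ (N m : ℝ) / (x.2 + 1 : ℕ) := fun m =>
    norm_bq (norm_nr (hα m).bad)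
  have hapx := fun m => apx_bl (hb m)
  have hRV := fun m => (hapx m).exists_RV
  choose B hB using hRV
  refine ⟨fun m => bl (bq (nr (i m) (α m))), B, fun m => ⟨boundary (hα m).bad, random (hB m)⟩,
    fun Φ hΦ hC => ?_, fun m => ⟨fun s hs => ?_, fun ε hε => (hapx m).sap hε, fun x => ?_,
      fun θ hθ => ?_, ⟨?_, ?_⟩, fun κ hκ => ?_, fun hne w => ?_, fun m' => ?_⟩⟩
  · obtain ⟨C, hC⟩ := hC
    exact Pool.Agent.V8H35.BJ.law_cont hapx hB hC hΦ
  · have h1 := euler (hα m).bad hs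
    exact ⟨h1.tprod_eq, h1⟩
  · -- Fourier coefficients
    have h1 := (hapx m).fourier (Real.log (((x.1 : ℕ) ^ (x.2 + 1) : ℕ) : ℝ))
      (c := coef (i m) (α m) x) ?_
    · exact h1
    · filter_upwards [eventually_ge_atTop (Pool.Agent.TH339.MP.qq x)] with Y hY
      rw [Finset.sum_eq_single x]
      · rw [if_pos, coef_eq]
        rw [Pool.Agent.TH339.MP.fr_eq]
        exact neg_add_cancel _
      · intro y _ hy
        rw [if_neg]
        intro h0
        apply hy
        apply Pool.Agent.TH339.MP.qq_injective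
        rw [Pool.Agent.TH339.MP.fr_eq] at h0
        have h2 : Real.log (Pool.Agent.TH339.MP.qq y) = Real.log (Pool.Agent.TH339.MP.qq x) := by
          have h3 : Real.log (((x.1 : ℕ) ^ (x.2 + 1) : ℕ) : ℝ) =
            Real.log (Pool.Agent.TH339.MP.qq x) := rfl
          rw [h3] at h0
          linarith
        have hpos : ∀ z : PP, (0 : ℝ) < Pool.Agent.TH339.MP.qq z := fun z => by
          have := Pool.Agent.TH339.MP.two_le_qq z
          exact_mod_cast (by omega : 0 < Pool.Agent.TH339.MP.qq z)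
        have := Real.log_injOn_pos (Set.mem_Ioi.2 (hpos y)) (Set.mem_Ioi.2 (hpos x)) h2
        exact_mod_cast this
      · intro hx
        exact absurd ((Pool.Agent.TH339.MP.mem_TX _ _).2 hY) hx
  · refine (hapx m).fourier θ (c := 0) (Eventually.of_forall fun Y => ?_)
    refine Finset.sum_eq_zero fun x _ => ?_
    rw [if_neg]
    intro h0
    rw [Pool.Agent.TH339.MP.fr_eq] at h0
    exact hθ x (by
      have h3 : Real.log (((x.1 : ℕ) ^ (x.2 + 1) : ℕ) : ℝ) =
        Real.log (Pool.Agent.TH339.MP.qq x) := rfl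
      rw [h3]
      linarith)
  · have := (hapx m).summable
    simp_rw [coef_eq]
    exact this
  · have := (hapx m).parseval
    simp_rw [coef_eq]
    exact this
  · have h1 := Pool.Agent.V8H35.BJ.moments (hb m) (hB m) (κ := κ) hκ
    have e : ∀ z : ℂ, ‖Complex.exp z‖ ^ κ = Real.exp (κ * z.re) := by
      intro z
      rw [Complex.norm_exp, ← Real.exp_mul, mul_comm]
    simp_rw [e]
    exact h1
  · obtain ⟨⟨p, k⟩, hk⟩ := hne
    rw [coef_eq] at hk
    have h1 := fun w => (hB m).atomless (p := p) (C := N m) (ρ := 1 / 2) (by norm_num) (by norm_num)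
      (fun k => Pool.Agent.V8H35.BJ.decay (hb m) p k) ⟨k, hk⟩ w
    exact Pool.Agent.V8H35.BJ.zd_of_closed (r := 1) (a := fun _ => ed (bq (nr (i m) (α m))))
      (lam := fun _ => bl (bq (nr (i m) (α m)))) (B := fun _ => B m) (fun _ => hapx m)
      (fun _ => hB m) (F := {x | Complex.exp (x 0) = w})
      (isClosed_eq (Complex.continuous_exp.comp (continuous_apply 0)) continuous_const)
      (Pool.Agent.V8H35.BJ.null_exp h1 w)
  · by_cases hall : ∀ x, coef (i m) (α m) x = coef (i m') (α m') x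
    · exact Or.inl hall
    · right
      push Not at hall
      obtain ⟨⟨p, k⟩, hk⟩ := hall
      rw [coef_eq, coef_eq] at hk
      have h0 := (hB m).sub (hB m')
      have hdec : ∀ k, ‖ed (bq (nr (i m) (α m))) (p, k) - ed (bq (nr (i m') (α m'))) (p, k)‖ ≤
          ((N m : ℝ) + N m') * (1 / 2 : ℝ) ^ (k + 1) := by
        intro k
        refine (norm_sub_le _ _).trans ?_
        rw [add_mul]
        exact add_le_add (Pool.Agent.V8H35.BJ.decay (hb m) p k)
          (Pool.Agent.V8H35.BJ.decay (hb m') p k)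
      have h1 := fun w => h0.atomless (p := p) (C := (N m : ℝ) + N m') (ρ := 1 / 2) (by norm_num)
        (by norm_num) hdec ⟨k, sub_ne_zero.2 hk⟩ w
      have h2 := Pool.Agent.V8H35.BJ.null_exp h1 1
      have h3 := Pool.Agent.V8H35.BJ.zd_of_closed (r := 2)
        (a := ![ed (bq (nr (i m) (α m))), ed (bq (nr (i m') (α m')))])
        (lam := ![bl (bq (nr (i m) (α m))), bl (bq (nr (i m') (α m')))]) (B := ![B m, B m'])
        (η := ![fun Y => (64800 * (N m : ℝ) ^ 2 + 1) / Real.log (Y + 3) * 2,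
          fun Y => (64800 * (N m' : ℝ) ^ 2 + 1) / Real.log (Y + 3) * 2])
        (fun j => by
          fin_cases j
          · exact hapx m
          · exact hapx m')
        (fun j => by
          fin_cases j
          · exact hB m
          · exact hB m')
        (F := {x | Complex.exp (x 0) = Complex.exp (x 1)})
        (isClosed_eq (Complex.continuous_exp.comp (continuous_apply 0))
          (Complex.continuous_exp.comp (continuous_apply 1))) (by
          refine measure_mono_null ?_ h2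
          intro ω hω
          change Complex.exp (B m ω) = Complex.exp (B m' ω) at hω
          change Complex.exp (B m ω - B m' ω) = 1
          rw [Complex.exp_sub, hω, div_self (Complex.exp_ne_zero _)])
      exact h3

end Pool.Agent.Results.MP_039d94_nt.BohrJessenOnTheEdge
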