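import Pool.Agent.V8H25.Gov.Fin

/-!
# One representation of the Weil group governs the edge line of all twists

`X` is a smooth projective variety over a number field `K`, for example over `K = ℚ`.  The question asks
for the meromorphic continuation of `L(H^i(X), s)` and for its poles; the possible poles closest to the
half plane of absolute convergence are on the edge line `Re s = i/2 + 1`.  The theorem is about the edge
line, for `H^i(X)` twisted by all the irreducible unitary representations `ρ` of the Weil group of `K`
(for example by all Artin representations and all unitary Hecke characters) together.  For every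
`i ≤ 2 dim X` there is one virtual representation `θ_i` of the Weil group of `K`, with
`⟨θ_i, θ_i⟩ ≤ (dim H^i(X))²`, with the following property: whenever `L(H^i(X) ⊗ ρ, s)` has a meromorphic
continuation to a neighbourhood of a point `s = i/2 + 1 + iτ` of the edge line (or, more generally, an
order at this point in the sense of radial limits), then it has a pole of order exactly
`⟨ρ ⊗ | |^{iτ}, θ_i⟩` there.  The same `θ_a`, `a ≤ 2 dim X`, give the orders of `L(H^n(X × Y), s)` on the
edge line for all varieties `Y` of CM type.  No continuation, no modularity and no automorphy is assumed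
for the existence of `θ_i`.
-/

set_option autoImplicit false

namespace Pool.Agent.Results.MP_039d94_nt.GoverningRepresentation

open NumberField IsDedekindDomain Filter Topology Polynomial
open Pool.Agent.N172.HS (WRep WRep.IsIrr WRep.inner Variety CMVariety)
open Pool.Agent.W353.EF (LFun)
open Pool.Agent.W353.EH (edgePoint size)
open Pool.Agent.V8H25.Gov (shift IsTensorAt IsSquare HasOrder Governs Exceptional OrdersExist
  IsProductAt pairing)

/-- **The governing representation.**  Let `X` be a variety over a number field `K`.  There are virtual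
representations `θ_0, θ_1, …` of the Weil group of `K` with the following properties.

* For `i ≤ 2 dim X`, every irreducible representation `ρ` of the Weil group of `K` and every real `τ`, if
  the order of `L(H^i(X) ⊗ ρ, s)` at `s = i/2 + 1 + iτ` exists, then it is `-⟨ρ ⊗ | |^{iτ}, θ_i⟩`
  (`Governs`).
* `⟨θ_i, θ_i⟩ ≤ (dim H^i(X))²`, and `⟨θ_i, θ_i⟩ ≤ r` if `L(H^i(X) ⊗ H^i(X), s)` has a pole of order `r` at
  `s = i + 1`.
* Without any continuation: for `0 < δ < 1` there are at most `(dim H^i(X) / δ)²` irreducible
  representations `σ_k`, all the constituents of `θ_i` among them, such that the absolute value of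
  `log |L(H^i(X) ⊗ ρ, i/2 + 1 + iτ + ε)|` is less than `δ log(1/ε)` for arbitrarily small `ε > 0`
  whenever `ρ ⊗ | |^{iτ}` is orthogonal to all the `σ_k` (`Exceptional`).
* Let `Y` be of CM type, and suppose that the orders of `L(H^a(X) ⊗ π, s)` at `a/2 + 1 + iτ` exist for
  the irreducible constituents `π` of the `H^b(Y)`, `a + b = n`.  Then `L(H^n(X × Y), s)` is different
  from zero at `s_ε = n/2 + 1 + iτ + ε` for small `ε > 0`, `log |L(H^n(X × Y), s_ε)| / log(1/ε)` tends to
  `∑_{a + b = n} ⟨H^b(Y) ⊗ | |^{iτ}, θ_a⟩`, and if the order of `L(H^n(X × Y), s)` at `n/2 + 1 + iτ`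
  exists, then there is a pole of exactly this order. -/
theorem result (K : Type) [Field K] [NumberField K] (X : Variety K) :
    ∃ θ : ℕ → WRep K,
      (∀ i ≤ 2 * X.dim, Governs X i (θ i) ∧ (θ i).inner (θ i) ≤ (X.betti i : ℤ) ^ 2 ∧
        (∀ (B₂ : HeightOneSpectrum (𝓞 K) → ℂ[X]) (r : ℤ), IsSquare X i B₂ →
          HasOrder (2 * i) 0 B₂ (-r) → (θ i).inner (θ i) ≤ r) ∧
        ∀ δ : ℝ, 0 < δ → δ < 1 → ∃ (n : ℕ) (σ : Fin n → WRep K), Exceptional X i (θ i) δ σ) ∧
      ∀ (Y : CMVariety K) (n : ℕ) (τ : ℝ), OrdersExist X Y n τ →
        ∀ B : HeightOneSpectrum (𝓞 K) → ℂ[X], IsProductAt X Y.toVariety n τ B →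
          (∀ᶠ ε : ℝ in 𝓝[>] 0, LFun B (edgePoint n τ + ε) ≠ 0) ∧
          Tendsto (size n τ B) (𝓝[>] 0) (𝓝 (pairing X Y θ n τ : ℝ)) ∧
          ∀ r : ℤ, HasOrder n τ B (-r) → r = pairing X Y θ n τ :=
  Pool.Agent.V8H25.Gov.main X

end Pool.Agent.Results.MP_039d94_nt.GoverningRepresentation
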