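import Pool.Agent.V8H32.CV.Equ

/-!
# All the L-functions are weight parts of zeta functions of smooth affine cubic hypersurfaces over `ℤ`

`X` is a projective variety over a number field `K`, for example over `K = ℚ`, given by homogeneous
equations over the integers of `K`.  The theorem is an exact and unconditional formula for the L-functions
`L(H^i(X), s)`: there is a polynomial `F` of degree at most three with integral coefficients, in fact with
all coefficients in `{0, 1, -1}`, such that the affine hypersurface `F = 1` is smooth over every field, and
such that the L-functions `L(H^i(X), s)` (or their inverses, according to the parity of `i` and to a sign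
which one can choose) are exactly the parts of weight `i + 2a` of the zeta function of this hypersurface,
translated by `a`.  There are no other factors, and one family of hypersurfaces over `ℤ` serves all the
number fields.  So the question for `X` and `i` (meromorphic continuation, and the assertion on the poles)
is equivalent to the same question for the part of weight `i + 2a` of the hypersurface; and the meromorphic
continuation of all the functions `L(H^i(X), s)`, with any Euler factors at the bad primes, follows from the
meromorphic continuation of the effective weight parts of the zeta functions of the hypersurfaces of this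
family (second part).  In the second part the hypothesis is also necessary, since by the resolution of
singularities and the theorem of Deligne the weight parts of all varieties over `ℚ` are, up to finitely many
Euler factors, quotients of products of translated functions `L(H^j(Y), s)`, `Y` smooth and projective; this
converse is not part of the theorem.

Notation.

* `nv v` is the number `q_v` of elements of the residue field of the prime `v` of `K`; `Above S v` means
  that `v` lies above a prime number of the finite set `S`.
* `IsFrob X d N v α`: the complex numbers `α_{k,j}`, `0 ≤ k ≤ 2d`, `1 ≤ j ≤ N_k`, with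
  `|α_{k,j}| = q_v^{k/2}`, are the eigenvalues of the Frobenius at `v` on `H^k(X)`: the number of points of
  `X` over the extension of degree `e` of the residue field is `∑_k (-1)^k ∑_j α_{k,j}^e`.  By the theorem
  of Deligne they exist for almost all `v` if `X` is smooth of dimension `d`, and they are unique.
* `LHp S α i s` and `LH S α i s` are the Euler products `∏_v ∏_j (1 - α_{v,i,j} q_v^{-s})⁻¹` over the primes
  `v` of `K` which are not above `S` (here `S` is a finite set of prime numbers), and over the primes
  `v ∉ S` (here `S` is a finite set of primes of `K`).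
* `IsDiv F p c`: `c` is the Frobenius divisor at `p` of the affine hypersurface `F = 1`; the number of its
  points over the field with `p^e` elements is `∑_z c(z) z^e`, and every `z` with `c(z) ≠ 0` satisfies
  `|z| = p^{w/2}` for an integer `w ≥ 0`, its weight.
* `LWp S c w s` is the part of weight `w` of the zeta function of the hypersurface,
  `∏_{p ∉ S} ∏_{|z| = p^{w/2}} (1 - z p^{-s})^{-c_p(z)}`.
* `Eff p w c`: the part of weight `w` is effective, `c(z) ≥ 0` for `|z| = p^{w/2}`.
* `SmoothOne F`: at every point of `F = 1` over every field one of the partial derivatives of `F` is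
  different from zero.
* `IsCubic F S c`: `F` has degree at most three and coefficients in `{0, 1, -1}`, `F = 1` is smooth over
  every field, and `c_p`, `p ∉ S`, are its Frobenius divisors, with bounded `∑_z |c_p(z)|`.
* `Mero L σ`: `L` extends from `Re s > σ` to a function meromorphic on `ℂ`.
* `Cont L w`: `L` extends from `Re s > w/2 + 1` to a function meromorphic on `ℂ`, holomorphic except
  possibly for a pole at `s = w/2 + 1`, and entire if `w` is odd.
-/

set_option autoImplicit false

namespace Pool.Agent.Results.MP_039d94_nt.SmoothCubicHypersurfaces

open NumberField IsDedekindDomain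
open Pool.Agent.V8H25.CF (Mero)
open Pool.Agent.V8H32.CF (nv lf wpart)
open Pool.Agent.V8H32.CU (IsFrob LH SmoothOne)
open Pool.Agent.V8H32.CV

open Classical in
/-- **Smooth cubic hypersurfaces with coefficients `0, 1, -1` suffice.**

1. Let `X` be a projective variety over a number field `K`, given by homogeneous equations over the
   integers of `K`, let `d ≥ 0` and let `ε` be a sign.  There are `a` and a polynomial `F` over `ℤ`, of
   degree at most three and with all coefficients in `{0, 1, -1}`, such that `F = 1` is smooth over every
   field and such that, for all finite sets `S` of prime numbers containing the bad ones, the hypersurface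
   `F = 1` has unique Frobenius divisors `c_p` for `p ∉ S`; they are bounded, and for all `i ≤ 2d` and
   `Re s > i/2 + 1`
   `L_S(H^i(X), s) = (part of weight i + 2a of the zeta function of F = 1)(s + a) ^ (ε (-1)^i)`.
   If `ε = (-1)^i`, then the part of weight `i + 2a` of the divisors is effective, and the function
   `L_S(H^i(X), s)` has a meromorphic continuation (a meromorphic continuation without poles except
   possibly at `s = i/2 + 1`, and without poles if `i` is odd) if and only if the part of weight `i + 2a`
   of the zeta function of `F = 1` has the same property.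
2. If the parts of weight `w` of the zeta functions of all these hypersurfaces have meromorphic
   continuations to `ℂ`, for all `w` for which they are effective, then so have the L-functions of `H^i(X)`
   for all projective varieties `X` over all number fields, with arbitrary Euler factors at the bad primes.
3. The Euler products of the parts of weight `w` are unconditionally convergent for `Re s > w/2 + 1`. -/
theorem result :
    (∀ (K : Type) [Field K] [NumberField K] (n d : ℕ) (X : Set (MvPolynomial (Fin (n + 1)) (𝓞 K))),
      (∀ f ∈ X, ∃ k, f.IsHomogeneous k) → ∀ ε : ℤ, ε = 1 ∨ ε = -1 →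
      ∃ (M a : ℕ) (F : MvPolynomial (Fin M) ℤ),
        F.totalDegree ≤ 3 ∧ (∀ m, F.coeff m = 0 ∨ F.coeff m = 1 ∨ F.coeff m = -1) ∧ SmoothOne F ∧
        ∀ (S : Finset Nat.Primes) (N : ℕ → ℕ) (α : HeightOneSpectrum (𝓞 K) → ∀ k, Fin (N k) → ℂ),
          (∀ v, ¬ Above S v → IsFrob X d N v (α v)) →
          (∀ p : Nat.Primes, p ∉ S → ∃! c : ℂ →₀ ℤ, IsDiv F p c) ∧
          ∀ c : Nat.Primes → ℂ →₀ ℤ, (∀ p, p ∉ S → IsDiv F p (c p)) → Bdp S c ∧
            ∀ i, i ≤ 2 * d →
              (∀ s : ℂ, (i : ℝ) / 2 + 1 < s.re →
                LHp S α i s = LWp S c (i + 2 * a) (s + a) ^ (ε * (-1 : ℤ) ^ i)) ∧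
              (ε = (-1) ^ i → (∀ p, p ∉ S → Eff p (i + 2 * a) (c p)) ∧
                (Mero (LHp S α i) ((i : ℝ) / 2 + 1) ↔
                  Mero (LWp S c (i + 2 * a)) (((i + 2 * a : ℕ) : ℝ) / 2 + 1)) ∧
                (Cont (LHp S α i) i ↔ Cont (LWp S c (i + 2 * a)) (i + 2 * a)))) ∧
    ((∀ (M : ℕ) (F : MvPolynomial (Fin M) ℤ) (S : Finset Nat.Primes) (c : Nat.Primes → ℂ →₀ ℤ),
        IsCubic F S c → ∀ w : ℕ, (∀ p, p ∉ S → Eff p w (c p)) →
          Mero (LWp S c w) ((w : ℝ) / 2 + 1)) →
      ∀ (K : Type) [Field K] [NumberField K] (n d : ℕ) (X : Set (MvPolynomial (Fin (n + 1)) (𝓞 K))),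
        (∀ f ∈ X, ∃ k, f.IsHomogeneous k) →
        ∀ (S : Finset (HeightOneSpectrum (𝓞 K))) (N : ℕ → ℕ)
          (α : HeightOneSpectrum (𝓞 K) → ∀ k, Fin (N k) → ℂ),
          (∀ v, v ∉ S → IsFrob X d N v (α v)) →
          ∀ (B : HeightOneSpectrum (𝓞 K) → Polynomial ℂ) (i : ℕ), i ≤ 2 * d →
            Mero (fun s => (∏ v ∈ S, ((B v).eval ((nv v : ℂ) ^ (-s)))⁻¹) * LH S α i s)
              ((i : ℝ) / 2 + 1)) ∧
    (∀ (S : Finset Nat.Primes) (c : Nat.Primes → ℂ →₀ ℤ), Bdp S c → ∀ (w : ℕ) (s : ℂ),
      (w : ℝ) / 2 + 1 < s.re → Multipliable (fun p : Nat.Primes => if p ∈ S then 1 else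
        lf (wpart (p : ℕ) w (c p)) (((p : ℕ) : ℂ) ^ (-s)))) :=
  ⟨fun K _ _ n d X hom _ hε => part1e n d X hom hε,
    fun H K _ _ n d X hom S N α hα B i hi => part2 H n d X hom S N α hα B i hi,
    fun S c hB w s hs => part0 S c hB w s hs⟩

end Pool.Agent.Results.MP_039d94_nt.SmoothCubicHypersurfaces
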